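import Mathlib

set_option autoImplicit false

namespace Pool.Agent.Results.MP_03d093_al.SphericalGrowth

/-- The automorphism `a` on words over `{0,1}` (`false = 0`, `true = 1`). -/
def aFun : List Bool → List Bool
  | [] => []
  | false :: w => true :: w
  | true :: w => false :: w

mutual
/-- The automorphism `b`. -/
def bFun : List Bool → List Bool
  | [] => []
  | false :: w => false :: aFun w
  | true :: w => true :: cFun w
/-- The automorphism `c`. -/
def cFun : List Bool → List Bool
  | [] => []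
  | false :: w => false :: aFun w
  | true :: w => true :: dFun w
/-- The automorphism `d`. -/
def dFun : List Bool → List Bool
  | [] => []
  | false :: w => false :: w
  | true :: w => true :: bFun w
end

theorem aFun_invol : Function.Involutive aFun := by
  intro w
  match w with
  | [] => rfl
  | false :: w => rfl
  | true :: w => rfl

theorem bcd_invol (w : List Bool) :
    bFun (bFun w) = w ∧ cFun (cFun w) = w ∧ dFun (dFun w) = w := by
  induction w with
  | nil => simp [bFun, cFun, dFun]
  | cons x w ih =>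
    cases x
    · simp [bFun, cFun, dFun, aFun_invol w]
    · simp [bFun, cFun, dFun, ih]

/-- `a` as a permutation of the vertices of the tree. -/
def a : Equiv.Perm (List Bool) := Function.Involutive.toPerm aFun aFun_invol
/-- `b` as a permutation of the vertices of the tree. -/
def b : Equiv.Perm (List Bool) := Function.Involutive.toPerm bFun (fun w => (bcd_invol w).1)
/-- `c` as a permutation of the vertices of the tree. -/
def c : Equiv.Perm (List Bool) := Function.Involutive.toPerm cFun (fun w => (bcd_invol w).2.1)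
/-- `d` as a permutation of the vertices of the tree. -/
def d : Equiv.Perm (List Bool) := Function.Involutive.toPerm dFun (fun w => (bcd_invol w).2.2)

/-- The generating set `{a, b, c, d}`. -/
def gens : Set (Equiv.Perm (List Bool)) := {a, b, c, d}

/-- The first Grigorchuk group. -/
def G : Subgroup (Equiv.Perm (List Bool)) := Subgroup.closure gens

/-- Word length with respect to `{a, b, c, d}` (and inverses). -/
noncomputable def wordLength (g : Equiv.Perm (List Bool)) : ℕ :=
  sInf {n | ∃ l : List (Equiv.Perm (List Bool)),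
    (∀ s ∈ l, s ∈ gens ∨ s⁻¹ ∈ gens) ∧ l.prod = g ∧ l.length = n}

/-- The growth function. -/
noncomputable def growth (n : ℕ) : ℕ := Set.ncard {g | g ∈ G ∧ wordLength g ≤ n}

/-- The spherical growth function. -/
noncomputable def sphGrowth (n : ℕ) : ℕ := Set.ncard {g | g ∈ G ∧ wordLength g = n}

/-- `f ≼ h`: there is an integer `C ≥ 1` with `f n ≤ h (C n)` for all `n ≥ 1`. -/
def Preceq (f h : ℕ → ℕ) : Prop := ∃ C : ℕ, 1 ≤ C ∧ ∀ n : ℕ, 1 ≤ n → f n ≤ h (C * n)

/-! ### Words in four letters -/

/-- the generators indexed by `Fin 4` -/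
def gen : Fin 4 → Equiv.Perm (List Bool) := ![a, b, c, d]

/-- the group element of a word -/
def wp (l : List (Fin 4)) : Equiv.Perm (List Bool) := (l.map gen).prod

theorem aa : a * a = 1 := by ext1 w; exact aFun_invol w
theorem bb : b * b = 1 := by ext1 w; exact (bcd_invol w).1
theorem cc : c * c = 1 := by ext1 w; exact (bcd_invol w).2.1
theorem dd : d * d = 1 := by ext1 w; exact (bcd_invol w).2.2

theorem gen_mul_self (i : Fin 4) : gen i * gen i = 1 := by
  fin_cases i
  · exact aa
  · exact bb
  · exact cc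
  · exact dd

theorem gen_inv (i : Fin 4) : (gen i)⁻¹ = gen i := inv_eq_of_mul_eq_one_left (gen_mul_self i)

theorem mem_gens_iff (s : Equiv.Perm (List Bool)) : s ∈ gens ↔ ∃ i, gen i = s := by
  unfold gens
  simp only [Set.mem_insert_iff, Set.mem_singleton_iff]
  constructor
  · rintro (h | h | h | h)
    · exact ⟨0, h.symm⟩
    · exact ⟨1, h.symm⟩
    · exact ⟨2, h.symm⟩
    · exact ⟨3, h.symm⟩
  · rintro ⟨i, rfl⟩
    fin_cases i
    · exact Or.inl rfl
    · exact Or.inr (Or.inl rfl)
    · exact Or.inr (Or.inr (Or.inl rfl))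
    · exact Or.inr (Or.inr (Or.inr rfl))

theorem mem_gens_iff' (s : Equiv.Perm (List Bool)) :
    (s ∈ gens ∨ s⁻¹ ∈ gens) ↔ ∃ i, gen i = s := by
  rw [mem_gens_iff, mem_gens_iff]
  constructor
  · rintro (h | ⟨i, hi⟩)
    · exact h
    · refine ⟨i, ?_⟩
      rw [← gen_inv, hi, inv_inv]
  · exact Or.inl

theorem wp_nil : wp [] = 1 := rfl
theorem wp_cons (i : Fin 4) (l : List (Fin 4)) : wp (i :: l) = gen i * wp l := by
  simp [wp]
theorem wp_append (l l' : List (Fin 4)) : wp (l ++ l') = wp l * wp l' := by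
  simp [wp]

theorem wp_reverse (l : List (Fin 4)) : wp l.reverse = (wp l)⁻¹ := by
  induction l with
  | nil => simp [wp]
  | cons i l ih =>
    rw [List.reverse_cons, wp_append, ih, wp_cons i l, mul_inv_rev, gen_inv]
    simp [wp]

theorem lift_list (l : List (Equiv.Perm (List Bool))) (h : ∀ s ∈ l, s ∈ gens ∨ s⁻¹ ∈ gens) :
    ∃ l' : List (Fin 4), l'.map gen = l := by
  induction l with
  | nil => exact ⟨[], rfl⟩
  | cons s l ih =>
    obtain ⟨l', hl'⟩ := ih (fun s hs => h s (List.mem_cons_of_mem _ hs))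
    obtain ⟨i, hi⟩ := (mem_gens_iff' s).1 (h s List.mem_cons_self)
    exact ⟨i :: l', by simp [hl', hi]⟩

theorem wordLength_eq (g : Equiv.Perm (List Bool)) :
    wordLength g = sInf {n | ∃ l : List (Fin 4), wp l = g ∧ l.length = n} := by
  unfold wordLength
  congr 1
  ext n
  constructor
  · rintro ⟨l, hl, hg, hn⟩
    obtain ⟨l', rfl⟩ := lift_list l hl
    exact ⟨l', hg, by simpa using hn⟩
  · rintro ⟨l, hg, hn⟩
    refine ⟨l.map gen, ?_, hg, by simpa using hn⟩
    intro s hs
    rw [List.mem_map] at hs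
    obtain ⟨i, _, rfl⟩ := hs
    exact (mem_gens_iff' _).2 ⟨i, rfl⟩

theorem mem_G_iff (g : Equiv.Perm (List Bool)) : g ∈ G ↔ ∃ l, wp l = g := by
  constructor
  · intro hg
    unfold G at hg
    induction hg using Subgroup.closure_induction with
    | mem x hx =>
      obtain ⟨i, hi⟩ := (mem_gens_iff x).1 hx
      exact ⟨[i], by simp [wp, hi]⟩
    | one => exact ⟨[], rfl⟩
    | mul x y _ _ hx hy =>
      obtain ⟨l, rfl⟩ := hx
      obtain ⟨l', rfl⟩ := hy
      exact ⟨l ++ l', wp_append _ _⟩
    | inv x _ hx =>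
      obtain ⟨l, rfl⟩ := hx
      exact ⟨l.reverse, wp_reverse _⟩
  · rintro ⟨l, rfl⟩
    induction l with
    | nil => exact one_mem _
    | cons i l ih =>
      rw [wp_cons]
      exact mul_mem (Subgroup.subset_closure ((mem_gens_iff _).2 ⟨i, rfl⟩)) ih

theorem len_le (l : List (Fin 4)) : wordLength (wp l) ≤ l.length := by
  rw [wordLength_eq]
  exact Nat.sInf_le ⟨l, rfl, rfl⟩

theorem exists_geod (g : Equiv.Perm (List Bool)) (hg : g ∈ G) :
    ∃ l, wp l = g ∧ l.length = wordLength g := by
  rw [wordLength_eq]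
  obtain ⟨l, hl⟩ := (mem_G_iff g).1 hg
  exact Nat.sInf_mem (s := {n | ∃ l : List (Fin 4), wp l = g ∧ l.length = n}) ⟨_, l, hl, rfl⟩

theorem len_mul (g h : Equiv.Perm (List Bool)) (hg : g ∈ G) (hh : h ∈ G) :
    wordLength (g * h) ≤ wordLength g + wordLength h := by
  obtain ⟨l, rfl, hl⟩ := exists_geod g hg
  obtain ⟨l', rfl, hl'⟩ := exists_geod h hh
  rw [← hl, ← hl', ← wp_append, ← List.length_append]
  exact len_le _

theorem len_inv (g : Equiv.Perm (List Bool)) (hg : g ∈ G) :
    wordLength (g⁻¹) ≤ wordLength g := by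
  obtain ⟨l, rfl, hl⟩ := exists_geod g hg
  rw [← hl, ← wp_reverse, ← List.length_reverse (as := l)]
  exact len_le _

theorem wp_mem (l : List (Fin 4)) : wp l ∈ G := (mem_G_iff _).2 ⟨l, rfl⟩

/-- The ball of radius `n`. -/
def B (n : ℕ) : Set (Equiv.Perm (List Bool)) := {g | g ∈ G ∧ wordLength g ≤ n}

theorem mem_B_iff (n : ℕ) (g : Equiv.Perm (List Bool)) :
    g ∈ B n ↔ ∃ l : List (Fin 4), l.length ≤ n ∧ wp l = g := by
  constructor
  · rintro ⟨hg, hn⟩
    obtain ⟨l, hl, hl'⟩ := exists_geod g hg
    exact ⟨l, by omega, hl⟩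
  · rintro ⟨l, hl, rfl⟩
    exact ⟨wp_mem l, le_trans (len_le l) hl⟩

theorem B_finite (n : ℕ) : (B n).Finite := by
  apply Set.Finite.subset ((List.finite_length_le (Fin 4) n).image wp)
  intro g hg
  obtain ⟨l, hl, hl'⟩ := (mem_B_iff n g).1 hg
  exact ⟨l, hl, hl'⟩

theorem growth_eq (n : ℕ) : growth n = (B n).ncard := rfl

theorem growth_mono {m n : ℕ} (h : m ≤ n) : growth m ≤ growth n := by
  rw [growth_eq, growth_eq]
  exact Set.ncard_le_ncard (fun g hg => ⟨hg.1, le_trans hg.2 h⟩) (B_finite n)

/-! ### Pairs -/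

/-- the function of a pair -/
def pairFun (g h : List Bool → List Bool) : List Bool → List Bool
  | [] => []
  | false :: w => false :: g w
  | true :: w => true :: h w

/-- the permutation `(g,h)` -/
def pair (g h : Equiv.Perm (List Bool)) : Equiv.Perm (List Bool) where
  toFun := pairFun g h
  invFun := pairFun (g⁻¹ : Equiv.Perm (List Bool)) (h⁻¹ : Equiv.Perm (List Bool))
  left_inv := by
    intro w
    match w with
    | [] => rfl
    | false :: w => simp [pairFun]
    | true :: w => simp [pairFun]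
  right_inv := by
    intro w
    match w with
    | [] => rfl
    | false :: w => simp [pairFun]
    | true :: w => simp [pairFun]

theorem pair_nil (g h : Equiv.Perm (List Bool)) : pair g h [] = [] := rfl
theorem pair_false (g h : Equiv.Perm (List Bool)) (w : List Bool) :
    pair g h (false :: w) = false :: g w := rfl
theorem pair_true (g h : Equiv.Perm (List Bool)) (w : List Bool) :
    pair g h (true :: w) = true :: h w := rfl

theorem perm_ext (g h : Equiv.Perm (List Bool)) (h0 : g [] = h [])
    (h1 : ∀ w, g (false :: w) = h (false :: w)) (h2 : ∀ w, g (true :: w) = h (true :: w)) :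
    g = h := by
  apply Equiv.ext
  intro w
  match w with
  | [] => exact h0
  | false :: w => exact h1 w
  | true :: w => exact h2 w

theorem pair_mul (g h g' h' : Equiv.Perm (List Bool)) :
    pair g h * pair g' h' = pair (g * g') (h * h') := by
  apply perm_ext
  · rfl
  · intro w; rfl
  · intro w; rfl

theorem pair_one : pair 1 1 = 1 := by
  apply perm_ext
  · rfl
  · intro w; rfl
  · intro w; rfl

theorem pair_inj {g h g' h' : Equiv.Perm (List Bool)} (e : pair g h = pair g' h') :
    g = g' ∧ h = h' := by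
  constructor
  · apply Equiv.ext
    intro w
    have : pair g h (false :: w) = pair g' h' (false :: w) := by rw [e]
    rw [pair_false, pair_false] at this
    exact (List.cons.inj this).2
  · apply Equiv.ext
    intro w
    have : pair g h (true :: w) = pair g' h' (true :: w) := by rw [e]
    rw [pair_true, pair_true] at this
    exact (List.cons.inj this).2

theorem b_eq : b = pair a c := by
  apply perm_ext
  · change bFun [] = []; simp [bFun]
  · intro w; change bFun (false :: w) = false :: aFun w; simp [bFun]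
  · intro w; change bFun (true :: w) = true :: cFun w; simp [bFun]
theorem c_eq : c = pair a d := by
  apply perm_ext
  · change cFun [] = []; simp [cFun]
  · intro w; change cFun (false :: w) = false :: aFun w; simp [cFun]
  · intro w; change cFun (true :: w) = true :: dFun w; simp [cFun]
theorem d_eq : d = pair 1 b := by
  apply perm_ext
  · change dFun [] = []; simp [dFun]
  · intro w; change dFun (false :: w) = false :: w; simp [dFun]
  · intro w; change dFun (true :: w) = true :: bFun w; simp [dFun]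
theorem a_conj (g h : Equiv.Perm (List Bool)) : a * pair g h * a = pair h g := by
  apply perm_ext
  · rfl
  · intro w; rfl
  · intro w; rfl

/-! ### The substitution -/

/-- the substitution on letters -/
def sub : Fin 4 → List (Fin 4) := ![[0, 2, 0], [3], [1], [2]]

/-- the first coordinate of the substitution -/
def del : Fin 4 → Equiv.Perm (List Bool) := ![d, 1, a, a]

theorem wp_sub (i : Fin 4) : wp (sub i) = pair (del i) (gen i) := by
  fin_cases i
  · change wp [0, 2, 0] = pair d a
    simp only [wp, List.map_cons, List.map_nil, List.prod_cons, List.prod_nil, mul_one]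
    change a * (c * a) = pair d a
    rw [c_eq, ← mul_assoc, a_conj]
  · change wp [3] = pair 1 b
    simp only [wp, List.map_cons, List.map_nil, List.prod_cons, List.prod_nil, mul_one]
    exact d_eq
  · change wp [1] = pair a c
    simp only [wp, List.map_cons, List.map_nil, List.prod_cons, List.prod_nil, mul_one]
    exact b_eq
  · change wp [2] = pair a d
    simp only [wp, List.map_cons, List.map_nil, List.prod_cons, List.prod_nil, mul_one]
    exact c_eq

/-- the substitution on words -/
def subst : List (Fin 4) → List (Fin 4)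
  | [] => []
  | i :: l => sub i ++ subst l

/-- the first coordinate of the substitution on words -/
def delta : List (Fin 4) → Equiv.Perm (List Bool)
  | [] => 1
  | i :: l => del i * delta l

theorem wp_subst (l : List (Fin 4)) : wp (subst l) = pair (delta l) (wp l) := by
  induction l with
  | nil => rw [subst, delta, wp_nil, pair_one]
  | cons i l ih => rw [subst, wp_append, wp_sub, ih, pair_mul, delta, wp_cons]

theorem length_subst (l : List (Fin 4)) : (subst l).length ≤ 3 * l.length := by
  induction l with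
  | nil => simp [subst]
  | cons i l ih =>
    rw [subst, List.length_append, List.length_cons]
    have : (sub i).length ≤ 3 := by fin_cases i <;> simp [sub]
    omega

/-- the dihedral group of order 8 -/
def Dih : Set (Equiv.Perm (List Bool)) :=
  {1, a, d, a * d, d * a, a * (d * a), d * (a * d), a * (d * (a * d))}

theorem Dih_finite : Dih.Finite := by
  unfold Dih
  exact Set.toFinite _

theorem Dih_card : Dih.ncard ≤ 8 := by
  unfold Dih
  refine (Set.ncard_insert_le _ _).trans (Nat.succ_le_succ ?_)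
  refine (Set.ncard_insert_le _ _).trans (Nat.succ_le_succ ?_)
  refine (Set.ncard_insert_le _ _).trans (Nat.succ_le_succ ?_)
  refine (Set.ncard_insert_le _ _).trans (Nat.succ_le_succ ?_)
  refine (Set.ncard_insert_le _ _).trans (Nat.succ_le_succ ?_)
  refine (Set.ncard_insert_le _ _).trans (Nat.succ_le_succ ?_)
  refine (Set.ncard_insert_le _ _).trans (Nat.succ_le_succ ?_)
  simp

theorem a_mul (x : Equiv.Perm (List Bool)) : a * (a * x) = x := by rw [← mul_assoc, aa, one_mul]
theorem d_mul (x : Equiv.Perm (List Bool)) : d * (d * x) = x := by rw [← mul_assoc, dd, one_mul]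

theorem rel8 : d * (a * (d * a)) = a * (d * (a * d)) := by
  have h1 : a * (d * a) = pair b 1 := by rw [d_eq, ← mul_assoc, a_conj]
  have h2 : d * (a * (d * a)) = pair b b := by rw [h1, d_eq, pair_mul]; simp
  have h3 : a * (d * (a * d)) = pair b b := by
    have : a * (d * (a * d)) = (a * (d * a)) * d := by simp only [mul_assoc]
    rw [this, h1, d_eq, pair_mul]; simp
  rw [h2, h3]

theorem Dih_a (x : Equiv.Perm (List Bool)) (hx : x ∈ Dih) : a * x ∈ Dih := by
  unfold Dih at *
  simp only [Set.mem_insert_iff, Set.mem_singleton_iff] at hx ⊢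
  rcases hx with rfl | rfl | rfl | rfl | rfl | rfl | rfl | rfl
  · simp
  · simp [aa]
  · simp
  · simp [a_mul]
  · simp
  · simp [a_mul]
  · simp
  · simp [a_mul]

theorem Dih_d (x : Equiv.Perm (List Bool)) (hx : x ∈ Dih) : d * x ∈ Dih := by
  unfold Dih at *
  simp only [Set.mem_insert_iff, Set.mem_singleton_iff] at hx ⊢
  rcases hx with rfl | rfl | rfl | rfl | rfl | rfl | rfl | rfl
  · simp
  · simp
  · simp [dd]
  · simp
  · simp [d_mul]
  · simp [rel8]
  · simp [d_mul]
  · rw [← rel8, d_mul]; simp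

theorem delta_mem (l : List (Fin 4)) : delta l ∈ Dih := by
  induction l with
  | nil => rw [delta]; simp [Dih]
  | cons i l ih =>
    rw [delta]
    fin_cases i
    · exact Dih_d _ ih
    · change 1 * delta l ∈ Dih
      rw [one_mul]; exact ih
    · exact Dih_a _ ih
    · exact Dih_a _ ih

/-- Quadratic growth inequality. -/
theorem growth_sq (n : ℕ) (hn : 1 ≤ n) : growth n ^ 2 ≤ 64 * growth (8 * n) := by
  classical
  have hw : ∀ g : Equiv.Perm (List Bool), ∃ l : List (Fin 4), g ∈ B n → l.length ≤ n ∧ wp l = g := by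
    intro g
    by_cases hg : g ∈ B n
    · obtain ⟨l, hl⟩ := (mem_B_iff n g).1 hg
      exact ⟨l, fun _ => hl⟩
    · exact ⟨[], fun h => absurd h hg⟩
  choose w hw using hw
  let F : Equiv.Perm (List Bool) × Equiv.Perm (List Bool) →
      Equiv.Perm (List Bool) × (Equiv.Perm (List Bool) × Equiv.Perm (List Bool)) :=
    fun p => (pair (delta (w p.1) * p.2) (p.1 * delta (w p.2)), (delta (w p.1), delta (w p.2)))
  have hmaps : ∀ p ∈ B n ×ˢ B n, F p ∈ B (8 * n) ×ˢ (Dih ×ˢ Dih) := by
    rintro ⟨g, h⟩ ⟨hg, hh⟩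
    simp only at hg hh
    refine ⟨?_, delta_mem _, delta_mem _⟩
    obtain ⟨hg1, hg2⟩ := hw g hg
    obtain ⟨hh1, hh2⟩ := hw h hh
    rw [mem_B_iff]
    refine ⟨subst (w g) ++ ([0] ++ subst (w h) ++ [0]), ?_, ?_⟩
    · have h1 := length_subst (w g)
      have h2 := length_subst (w h)
      simp only [List.length_append, List.length_cons, List.length_nil]
      omega
    · rw [wp_append, wp_append, wp_append, wp_subst, wp_subst, hg2, hh2]
      have : wp [0] = a := by simp [wp, gen]
      rw [this, a_conj, pair_mul]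
  have hinj : Set.InjOn F (B n ×ˢ B n) := by
    rintro ⟨g, h⟩ _ ⟨g', h'⟩ _ e
    simp only [F, Prod.mk.injEq] at e
    obtain ⟨e1, e2, e3⟩ := e
    obtain ⟨e4, e5⟩ := pair_inj e1
    rw [e2] at e4
    rw [e3] at e5
    have := mul_left_cancel e4
    have := mul_right_cancel e5
    simp_all
  have h1 := Set.ncard_le_ncard_of_injOn F hmaps hinj
    ((B_finite (8 * n)).prod (Dih_finite.prod Dih_finite))
  rw [Set.ncard_prod, Set.ncard_prod, Set.ncard_prod] at h1
  rw [growth_eq, growth_eq, pow_two]
  have h2 : Dih.ncard * Dih.ncard ≤ 8 * 8 := Nat.mul_le_mul Dih_card Dih_card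
  calc (B n).ncard * (B n).ncard ≤ (B (8 * n)).ncard * (Dih.ncard * Dih.ncard) := h1
    _ ≤ (B (8 * n)).ncard * (8 * 8) := Nat.mul_le_mul_left _ h2
    _ = 64 * (B (8 * n)).ncard := by ring

/-! ### `G` is infinite -/

theorem transitive (k : ℕ) : ∀ w w' : List Bool, w.length = k → w'.length = k →
    ∃ l, wp l w = w' := by
  induction k with
  | zero =>
    intro w w' hw hw'
    rw [List.length_eq_zero_iff] at hw hw'
    subst hw; subst hw'
    exact ⟨[], rfl⟩
  | succ k ih =>
    have htrue : ∀ v v' : List Bool, v.length = k → v'.length = k →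
        ∃ l, wp l (true :: v) = true :: v' := by
      intro v v' hv hv'
      obtain ⟨l, hl⟩ := ih v v' hv hv'
      refine ⟨subst l, ?_⟩
      rw [wp_subst, pair_true, hl]
    have htotrue : ∀ (x : Bool) (v : List Bool), ∃ l, wp l (x :: v) = true :: v := by
      intro x v
      cases x
      · exact ⟨[0], by simp [wp, gen]; rfl⟩
      · exact ⟨[], rfl⟩
    have hfromtrue : ∀ (x : Bool) (v : List Bool), ∃ l, wp l (true :: v) = x :: v := by
      intro x v
      cases x
      · exact ⟨[0], by simp [wp, gen]; rfl⟩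
      · exact ⟨[], rfl⟩
    intro w w' hw hw'
    obtain ⟨x, v, rfl⟩ := List.exists_cons_of_length_eq_add_one hw
    obtain ⟨x', v', rfl⟩ := List.exists_cons_of_length_eq_add_one hw'
    rw [List.length_cons, add_left_inj] at hw hw'
    obtain ⟨l1, h1⟩ := htotrue x v
    obtain ⟨l2, h2⟩ := htrue v v' hw hw'
    obtain ⟨l3, h3⟩ := hfromtrue x' v'
    refine ⟨l3 ++ (l2 ++ l1), ?_⟩
    rw [wp_append, wp_append, Equiv.Perm.mul_apply, Equiv.Perm.mul_apply, h1, h2, h3]

theorem G_infinite : {g | g ∈ G}.Infinite := by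
  intro hfin
  -- the orbit map on level `k`
  have hN : ∀ k : ℕ, 2 ^ k ≤ {g | g ∈ G}.ncard := by
    intro k
    have hsub : {w : List Bool | w.length = k} ⊆
        (fun g : Equiv.Perm (List Bool) => g (List.replicate k true)) '' {g | g ∈ G} := by
      intro w hw
      obtain ⟨l, hl⟩ := transitive k (List.replicate k true) w (by simp) hw
      exact ⟨wp l, wp_mem l, hl⟩
    have h1 := Set.ncard_le_ncard hsub (hfin.image _)
    have h2 := Set.ncard_image_le (f := fun g : Equiv.Perm (List Bool) =>
      g (List.replicate k true)) hfin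
    have h3 : ({w : List Bool | w.length = k}).ncard = 2 ^ k := by
      have : Nat.card {w : List Bool // w.length = k} = 2 ^ k := by
        change Nat.card (List.Vector Bool k) = 2 ^ k
        rw [Nat.card_eq_fintype_card, card_vector]
        simp
      exact this
    omega
  have := hN {g | g ∈ G}.ncard
  have h2 := Nat.lt_two_pow_self (n := {g | g ∈ G}.ncard)
  omega

/-- There are geodesic words of every length. -/
theorem exists_word (N : ℕ) : ∃ l : List (Fin 4), l.length = N ∧ wordLength (wp l) = N := by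
  have : ∃ g ∈ G, N ≤ wordLength g := by
    by_contra hcon
    push Not at hcon
    apply G_infinite
    apply (B_finite N).subset
    intro g hg
    exact ⟨hg, (hcon g hg).le⟩
  obtain ⟨g, hg, hN⟩ := this
  obtain ⟨l, hl, hl'⟩ := exists_geod g hg
  have hlen : (l.take N).length = N := by
    rw [List.length_take]; omega
  refine ⟨l.take N, hlen, ?_⟩
  have h1 : g = wp (l.take N) * wp (l.drop N) := by
    rw [← wp_append, List.take_append_drop, hl]
  have h2 := len_mul _ _ (wp_mem (l.take N)) (wp_mem (l.drop N))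
  rw [← h1] at h2
  have h3 := len_le (l.drop N)
  rw [List.length_drop] at h3
  have h4 := len_le (l.take N)
  omega

theorem growth_ge (n : ℕ) : n + 1 ≤ growth n := by
  obtain ⟨l, hl, hl'⟩ := exists_word n
  have hlen : ∀ j ≤ n, wordLength (wp (l.take j)) = j := by
    intro j hj
    have h1 : wp l = wp (l.take j) * wp (l.drop j) := by
      rw [← wp_append, List.take_append_drop]
    have h2 := len_mul _ _ (wp_mem (l.take j)) (wp_mem (l.drop j))
    rw [← h1] at h2
    have h3 := len_le (l.drop j)
    rw [List.length_drop] at h3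
    have h4 := len_le (l.take j)
    rw [List.length_take] at h4
    omega
  have h1 : ((Finset.range (n + 1) : Finset ℕ) : Set ℕ).ncard ≤ (B n).ncard := by
    refine Set.ncard_le_ncard_of_injOn (fun j => wp (l.take j)) ?_ ?_ (B_finite n)
    · intro j hj
      rw [Finset.mem_coe, Finset.mem_range] at hj
      exact ⟨wp_mem _, by rw [hlen j (by omega)]; omega⟩
    · intro j hj j' hj' e
      rw [Finset.mem_coe, Finset.mem_range] at hj hj'
      simp only at e
      rw [← hlen j (by omega), ← hlen j' (by omega), e]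
  rw [Set.ncard_coe_finset, Finset.card_range] at h1
  exact h1

/-- Translation along a geodesic. -/
theorem growth_le_sph (m n : ℕ) (hnm : n ≤ m) : growth n ≤ (m + n + 1) * sphGrowth m := by
  classical
  obtain ⟨l, hl, hl'⟩ := exists_word (m + n)
  have hj : ∀ g : Equiv.Perm (List Bool), ∃ j : ℕ, g ∈ B n →
      j < m + n + 1 ∧ wordLength (g * wp (l.take j)) = m := by
    intro g
    by_cases hg : g ∈ B n
    · have hex : ∃ j, m ≤ wordLength (g * wp (l.take j)) := by
        refine ⟨m + n, ?_⟩
        have h1 : l.take (m + n) = l := List.take_of_length_le (by omega)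
        rw [h1]
        have h2 : wp l = g⁻¹ * (g * wp l) := by rw [inv_mul_cancel_left]
        have h3 := len_mul (g⁻¹) (g * wp l) (inv_mem hg.1) (mul_mem hg.1 (wp_mem l))
        rw [← h2] at h3
        have h4 := len_inv g hg.1
        have h5 := hg.2
        omega
      refine ⟨Nat.find hex, fun _ => ?_⟩
      have h1 : m ≤ wordLength (g * wp (l.take (Nat.find hex))) := Nat.find_spec hex
      have h2 : Nat.find hex ≤ m + n := by
        by_contra hcon
        push Not at hcon
        have h3 := Nat.find_min hex (m := m + n) hcon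
        have h1' : l.take (m + n) = l := List.take_of_length_le (by omega)
        have h1'' : l.take (Nat.find hex) = l := List.take_of_length_le (by omega)
        rw [h1'] at h3
        rw [h1''] at h1
        exact h3 h1
      refine ⟨by omega, le_antisymm ?_ h1⟩
      rcases Nat.eq_zero_or_pos (Nat.find hex) with h0 | h0
      · rw [h0]
        simp only [List.take_zero, wp_nil, mul_one]
        exact le_trans hg.2 hnm
      · obtain ⟨j, hj⟩ : ∃ j, Nat.find hex = j + 1 := ⟨Nat.find hex - 1, by omega⟩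
        have h3 := Nat.find_min hex (m := j) (by omega)
        rw [hj]
        have hjlt : j < l.length := by omega
        rw [List.take_succ_eq_append_getElem hjlt, wp_append, ← mul_assoc]
        have h4 := len_mul (g * wp (l.take j)) (wp [l[j]]) (mul_mem hg.1 (wp_mem _)) (wp_mem _)
        have h5 := len_le [l[j]]
        simp only [List.length_cons, List.length_nil] at h5
        omega
    · exact ⟨0, fun h => absurd h hg⟩
  choose J hJ using hj
  have hfin : ({g | g ∈ G ∧ wordLength g = m} : Set (Equiv.Perm (List Bool))).Finite :=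
    (B_finite m).subset (fun g hg => ⟨hg.1, hg.2.le⟩)
  have h1 : (B n).ncard ≤ (((Finset.range (m + n + 1) : Finset ℕ) : Set ℕ) ×ˢ
      ({g | g ∈ G ∧ wordLength g = m} : Set (Equiv.Perm (List Bool)))).ncard := by
    refine Set.ncard_le_ncard_of_injOn (fun g => (J g, g * wp (l.take (J g)))) ?_ ?_
      ((Finset.finite_toSet _).prod hfin)
    · intro g hg
      obtain ⟨h1, h2⟩ := hJ g hg
      refine ⟨?_, mul_mem hg.1 (wp_mem _), h2⟩
      rw [Finset.mem_coe, Finset.mem_range]
      exact h1
    · intro g _ g' _ e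
      simp only [Prod.mk.injEq] at e
      obtain ⟨e1, e2⟩ := e
      rw [e1] at e2
      exact mul_right_cancel e2
  rw [Set.ncard_prod, Set.ncard_coe_finset, Finset.card_range] at h1
  exact h1

theorem main_ineq (n : ℕ) (hn : 1 ≤ n) : growth n ≤ sphGrowth (2 ^ 22 * n) := by
  have s0 := growth_sq (128 * n) (by omega)
  have s1 := growth_sq (8 * (128 * n)) (by omega)
  have s2 := growth_sq (8 * (8 * (128 * n))) (by omega)
  have s3 := growth_sq (8 * (8 * (8 * (128 * n)))) (by omega)
  have s4 := growth_sq (8 * (8 * (8 * (8 * (128 * n))))) (by omega)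
  have hC : 8 * (8 * (8 * (8 * (8 * (128 * n))))) = 2 ^ 22 * n := by ring
  rw [hC] at s4
  set x0 := growth (128 * n)
  set x1 := growth (8 * (128 * n))
  set x2 := growth (8 * (8 * (128 * n)))
  set x3 := growth (8 * (8 * (8 * (128 * n))))
  set x4 := growth (8 * (8 * (8 * (8 * (128 * n)))))
  set x5 := growth (2 ^ 22 * n)
  have hx0 : 128 * n + 1 ≤ x0 := growth_ge _
  have hx0' : growth n ≤ x0 := growth_mono (by omega)
  have hfin := growth_le_sph (2 ^ 22 * n) (2 ^ 22 * n) le_rfl
  set s := sphGrowth (2 ^ 22 * n)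
  -- real arithmetic
  have r0 : ((x0 : ℝ) / 64) ^ 2 ≤ x1 / 64 := by
    have : ((x0 ^ 2 : ℕ) : ℝ) ≤ ((64 * x1 : ℕ) : ℝ) := by exact_mod_cast s0
    push_cast at this
    rw [div_pow]; linarith
  have r1 : ((x1 : ℝ) / 64) ^ 2 ≤ x2 / 64 := by
    have : ((x1 ^ 2 : ℕ) : ℝ) ≤ ((64 * x2 : ℕ) : ℝ) := by exact_mod_cast s1
    push_cast at this
    rw [div_pow]; linarith
  have r2 : ((x2 : ℝ) / 64) ^ 2 ≤ x3 / 64 := by
    have : ((x2 ^ 2 : ℕ) : ℝ) ≤ ((64 * x3 : ℕ) : ℝ) := by exact_mod_cast s2
    push_cast at this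
    rw [div_pow]; linarith
  have r3 : ((x3 : ℝ) / 64) ^ 2 ≤ x4 / 64 := by
    have : ((x3 ^ 2 : ℕ) : ℝ) ≤ ((64 * x4 : ℕ) : ℝ) := by exact_mod_cast s3
    push_cast at this
    rw [div_pow]; linarith
  have r4 : ((x4 : ℝ) / 64) ^ 2 ≤ x5 / 64 := by
    have : ((x4 ^ 2 : ℕ) : ℝ) ≤ ((64 * x5 : ℕ) : ℝ) := by exact_mod_cast s4
    push_cast at this
    rw [div_pow]; linarith
  have hn' : (1 : ℝ) ≤ n := by exact_mod_cast hn
  have hx0r : (2 : ℝ) * n ≤ x0 / 64 := by
    have : ((128 * n + 1 : ℕ) : ℝ) ≤ x0 := by exact_mod_cast hx0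
    push_cast at this
    linarith
  have hy : (0 : ℝ) ≤ x0 / 64 := by positivity
  have t1 : ((x0 : ℝ) / 64) ^ 4 ≤ x2 / 64 := by
    calc ((x0 : ℝ) / 64) ^ 4 = (((x0 : ℝ) / 64) ^ 2) ^ 2 := by ring
      _ ≤ ((x1 : ℝ) / 64) ^ 2 := pow_le_pow_left₀ (by positivity) r0 2
      _ ≤ _ := r1
  have t2 : ((x0 : ℝ) / 64) ^ 8 ≤ x3 / 64 := by
    calc ((x0 : ℝ) / 64) ^ 8 = (((x0 : ℝ) / 64) ^ 4) ^ 2 := by ring
      _ ≤ ((x2 : ℝ) / 64) ^ 2 := pow_le_pow_left₀ (by positivity) t1 2
      _ ≤ _ := r2
  have t3 : ((x0 : ℝ) / 64) ^ 16 ≤ x4 / 64 := by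
    calc ((x0 : ℝ) / 64) ^ 16 = (((x0 : ℝ) / 64) ^ 8) ^ 2 := by ring
      _ ≤ ((x3 : ℝ) / 64) ^ 2 := pow_le_pow_left₀ (by positivity) t2 2
      _ ≤ _ := r3
  have t4 : ((x0 : ℝ) / 64) ^ 32 ≤ x5 / 64 := by
    calc ((x0 : ℝ) / 64) ^ 32 = (((x0 : ℝ) / 64) ^ 16) ^ 2 := by ring
      _ ≤ ((x4 : ℝ) / 64) ^ 2 := pow_le_pow_left₀ (by positivity) t3 2
      _ ≤ _ := r4
  have t5 : (2 * (n : ℝ)) ^ 31 ≤ ((x0 : ℝ) / 64) ^ 31 := pow_le_pow_left₀ (by positivity) hx0r 31
  have t6 : (2 : ℝ) ^ 31 * n ≤ (2 * (n : ℝ)) ^ 31 := by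
    rw [mul_pow]
    have : (n : ℝ) ≤ n ^ 31 := le_self_pow₀ hn' (by norm_num)
    have h2 : (0 : ℝ) < 2 ^ 31 := by positivity
    nlinarith
  have t7 : (x0 : ℝ) * (2 ^ 31 * n) ≤ x5 := by
    have : (x0 : ℝ) * ((x0 : ℝ) / 64) ^ 31 ≤ x5 := by
      have h3 : ((x0 : ℝ) / 64) ^ 32 * 64 = (x0 : ℝ) * ((x0 : ℝ) / 64) ^ 31 := by ring
      linarith
    have h4 : (2 : ℝ) ^ 31 * n ≤ ((x0 : ℝ) / 64) ^ 31 := le_trans t6 t5
    have h5 : (0 : ℝ) ≤ x0 := by positivity
    nlinarith
  have t8 : x0 * (2 ^ 31 * n) ≤ x5 := by exact_mod_cast t7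
  have t9 : growth n * (2 ^ 31 * n) ≤ (2 ^ 22 * n + 2 ^ 22 * n + 1) * s :=
    le_trans (Nat.mul_le_mul_right _ hx0') (le_trans t8 hfin)
  have t10 : (2 ^ 22 * n + 2 ^ 22 * n + 1) * s ≤ (2 ^ 31 * n) * s :=
    Nat.mul_le_mul_right _ (by omega)
  have t11 : growth n * (2 ^ 31 * n) ≤ s * (2 ^ 31 * n) := by
    rw [mul_comm s]
    exact le_trans t9 t10
  exact Nat.le_of_mul_le_mul_right t11 (by omega)

/-- The spherical growth function and the ball growth function of the first Grigorchuk group are
equivalent. -/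
theorem result : Preceq sphGrowth growth ∧ Preceq growth sphGrowth := by
  refine ⟨⟨1, le_rfl, fun n _ => ?_⟩, ⟨2 ^ 22, by norm_num, main_ineq⟩⟩
  rw [one_mul]
  exact Set.ncard_le_ncard (fun g hg => ⟨hg.1, hg.2.le⟩) (B_finite n)

end Pool.Agent.Results.MP_03d093_al.SphericalGrowth
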